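import Pool.Agent.Helper34.RP.Final

/-!
A ballot type lower bound for `μ(d,2,k)`, all `2 ≤ k ≤ d`.
-/

namespace Pool.Agent.Results.MP_b30edf_co.BallotBound

open Pool.Agent.Helper34.RP

/-- For all `2 ≤ k ≤ d`:
`μ(d,2,k) ≥ C(d+k,k) - C(d+k,k-1) + 2 (C(d+k-2,k-1) - C(d+k-2,k-2))`. -/
theorem result (d k : ℕ) (hk : 2 ≤ k) (hkd : k ≤ d) :
    (d + k).choose k + 2 * (d + k - 2).choose (k - 1) ≤
      mu d 2 k + (d + k).choose (k - 1) + 2 * (d + k - 2).choose (k - 2) :=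
  lower_ballot hk hkd

end Pool.Agent.Results.MP_b30edf_co.BallotBound
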