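import Pool.Agent.Helper34.RP.Final

/-!
`μ(d,2,k)` up to an error of exact order `d^⌊k/2⌋`.
-/

namespace Pool.Agent.Results.MP_b30edf_co.Deficiency

open Finset Pool.Agent.Helper34.RP

/-- For every `k ≥ 2` the difference `∑_{j ≤ k} C(d+k+1, j) - μ(d,2,k)` lies, for all `d ≥ k`, between
`C(d+1, ⌊k/2⌋) + 2^{k+1} - 2` and `2^{3k+2} C(d+k+2, ⌊k/2⌋)`; so it has exact order `d^⌊k/2⌋`. -/
theorem result (k : ℕ) (hk : 2 ≤ k) :
    (∀ d : ℕ, k ≤ d →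
      mu d 2 k + ((d + 1).choose (k / 2) + 2 ^ (k + 1) - 2) ≤
        ∑ j ∈ range (k + 1), (d + k + 1).choose j ∧
      ∑ j ∈ range (k + 1), (d + k + 1).choose j ≤
        mu d 2 k + 2 ^ (3 * k + 2) * (d + k + 2).choose (k / 2)) ∧
    ∃ c C : ℝ, 0 < c ∧ 0 < C ∧ ∀ d : ℕ, k ≤ d →
      c * (d : ℝ) ^ (k / 2) ≤
        ((∑ j ∈ range (k + 1), (d + k + 1).choose j : ℕ) : ℝ) - mu d 2 k ∧
      ((∑ j ∈ range (k + 1), (d + k + 1).choose j : ℕ) : ℝ) - mu d 2 k ≤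
        C * (d : ℝ) ^ (k / 2) := by
  refine ⟨fun d hd => ⟨?_, lower_error (by omega) hd⟩, deficiency (by omega)⟩
  have h1 := upper_moment hd hk
  have e : d + 1 + k = d + k + 1 := by omega
  rw [e] at h1
  have : 2 ^ 1 ≤ 2 ^ (k + 1) := Nat.pow_le_pow_right (by norm_num) (by omega)
  omega

end Pool.Agent.Results.MP_b30edf_co.Deficiency
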