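import Pool.Agent.Helper34.RP.Final

/-!
The exact value of `μ(d,2,1)` for every `d ≥ 1`.
-/

namespace Pool.Agent.Results.MP_b30edf_co.ExactKOne

open Pool.Agent.Helper34.RP

/-- `μ(d,2,1) = d + 1` for all `d ≥ 1`: the least number of `(2,1)`-partitions of a strongly
independent set of `d + 3` points in `ℝᵈ`. -/
theorem result (d : ℕ) (hd : 1 ≤ d) : mu d 2 1 = d + 1 := mu_one hd

end Pool.Agent.Results.MP_b30edf_co.ExactKOne
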