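import Pool.Agent.Helper34.RP.Final

/-!
The exact value of `μ(d,2,2)` for every `d ≥ 2`.
-/

namespace Pool.Agent.Results.MP_b30edf_co.ExactKTwo

open Pool.Agent.Helper34.RP

/-- `μ(d,2,2) = (d² + 5d - 6)/2` for all `d ≥ 2`: the least number of `(2,2)`-partitions of a strongly
independent set of `d + 4` points in `ℝᵈ`. -/
theorem result (d : ℕ) (hd : 2 ≤ d) : 2 * mu d 2 2 = d ^ 2 + 5 * d - 6 := by
  have := mu_two hd
  omega

end Pool.Agent.Results.MP_b30edf_co.ExactKTwo
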